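import Pool.Agent.Q235.FD.Plane

/-!
# The Tauberian Tate conjecture with square-root error for almost all double planes whose coefficients arise from arbitrary integers
by changing a few digits

Let `V : w ^ 2 = F(x, y, z)` be the double plane branched along a plane curve `F = 0` of degree `2 d`, `d ≥ 2`, through the point
`(0 : 0 : 1)`, with the tangent `x = 0` there (a rational point of a smooth curve can be moved to this position): del Pezzo surfaces of
degree 2 for `d = 2`, K3 surfaces for `d = 3`, surfaces of general type for `d ≥ 4`. The coefficients of `F` arise from arbitrary integers
by changing a few digits at random positions. The Tauberian Tate conjecture says that the mean of `b_p(V) log p / p` over the primes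
tends to the rank of `NS(V / ℚ)`, which is one for the general `V`. We show for almost all choices of the positions that
`∑ w_p (b_p(V) / p - 1) log p`, the sum over the primes `p ≤ x`, is at most `x ^ (1 / 2 + δ)`, for all `w` in an arbitrary family of
`x ^ B` weight functions with values in `[-1, 1]` (all primes, those of an arithmetic progression, characters, `p ^ (i t)`, ...), for all
`x` from `y` to `exp (c r)`, where `r` is the number of the digits changed.

The proof uses the law for functions of the residues of such tuples (library `TH894.NE`), Weil's bound on the lines through the
point (library `H341R2`), and the independence of the values of `F` at two different points.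
-/

set_option autoImplicit false

namespace Pool.Agent.Results.MP_4589ac_nt.FewDigitSurfaces

open Finset Pool.Agent.Q235.FD

/-- The double planes `w ^ 2 = F(x, y, z)`, `F = x z ^ (2 d - 1) + ∑ m (i, j) x ^ i y ^ j z ^ (2 d - i - j)` (sum over `2 ≤ i + j ≤ 2 d`):
for all `d ≥ 2`, bases `b ≥ 2`, `δ > 0`, `A` and `B`, for almost all coefficient vectors `m` obtained by changing a few digits of
arbitrary integers (`ForAlmostAll`), uniformly in the family `θ` of at most `x ^ B` weight functions, the sum of
`w_p (b_p / p - 1) log p` over the primes `p ≤ x` is at most `x ^ (1 / 2 + δ)` in absolute value; here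
`b_p = planeTrace d p m` is the number of points of the double plane over the field with `p` elements minus `1 + p ^ 2`. -/
theorem result (d : ℕ) (hd : 2 ≤ d) (b : ℕ) (hb : 2 ≤ b) (δ : ℝ) (hδ : 0 < δ) (A B : ℕ) :
    ForAlmostAll (Mon d) b A (fun (θ : Weights B) x m => ∀ w ∈ θ.W x,
      |∑ p ∈ primesTo x, w p * Real.log p * (planeTrace d p m / p - 1)| ≤ (x : ℝ) ^ (1 / 2 + δ)) :=
  planes hd hb hδ A B

end Pool.Agent.Results.MP_4589ac_nt.FewDigitSurfaces
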