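import Pool.Agent.Q11.MS.Final

/-!
# The Tauberian averages for divisors over all number fields and the mean squares

`X` is a smooth projective variety of dimension at most `r` over a number field `K`, and `W` is the space
`NS(X) ⊗ ℚ` with the action of the absolute Galois group of `K`.  For a number field `F ⊇ K` the rank of
`NS(X / F)` is `dim W^{Gal(K̄/F)}`, and Q1 for `X` over `F` says that `T⁻¹ ∑_{q_v ≤ T} z_v log q_v` tends to
this rank, for the values `z_v = b_v(X) / q_v` at the primes `v` of `F`.  `T_v = z_v - tr(Frob_v | W)` is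
the trace on the transcendental part of `H²(X)(1)`.
The definitions are in `Pool.Agent.Q11.MS.Defs`, `Pool.Agent.W353.FB.Defs`, `Pool.Agent.W353.SP.Defs`,
`Pool.Agent.W353.AT.TDefs`, `Pool.Agent.W353.AT.Defs` and `Pool.Agent.W353.TD.Defs`.
-/

set_option autoImplicit false

namespace Pool.Agent.Results.MP_4589ac_nt.MeanSquares

open NumberField Pool.Agent.W353.FB Pool.Agent.Q11.MS

/-- **The Tauberian averages for divisors over all number fields and the mean squares.**  Let `W` be
a part of the values `z_v = b_v(X) / q_v` of the projective variety `X`, given by `N` numbers of absolute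
value `≤ 1`, `T_v = z_v - tr(Frob_v | W)` and `s = N - dim W`.  Every sequence `Y_j → ∞` has a subsequence
along which the averages `Y⁻¹ ∑_{q_v ≤ Y} z_v log q_v` and `Y⁻¹ ∑_{q_v ≤ Y} T_v² log q_v` converge over all
number fields `F ⊇ K`, and with the weights `Re χ(Frob_v)` over `K` for all Artin representations `χ` of
`K`.  Let `dim W^{Gal(K̄/F)} - δ_F`, `r_F`, `dim (W ⊗ χ)^{Gal(K̄/K)} - y_χ` and `q_χ` be the limits.  Then
* `∑ y_χ² ≤ q_1`, the sum over the irreducible `χ`, where `1` is the trivial representation, so that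
  `q_1` is the mean square of `T_v` over `K`;
* for every finite Galois extension `M` of `K` the class functions `θ = ∑ y_χ χ` and `Θ = ∑ q_χ χ` on
  `Gal(M/K)`, the sums over the irreducible `χ` of `Gal(M/K)`, satisfy `|θ(g)|² ≤ Re Θ(g) ≤ s²` for
  all `g`;
* `δ_F² ≤ r_F ≤ s²`, `δ_F = ∑ y_χ dim χ^{Gal(K̄/F)}` and `r_F = ∑ q_χ dim χ^{Gal(K̄/F)}` for all number
  fields `F ⊇ K`, of any degree;
* for all `c` and `η > 0` there is a finite Galois extension `M` of `K` with `|δ_F - δ_{F ∩ M}| < η` for
  all number fields `F ⊇ K` of degree at most `c`, and the same for `r`. -/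
theorem result (K : Type) [Field K] [NumberField K] (n : ℕ)
    (X : Set (MvPolynomial (Fin n) (𝓞 K))) (r : ℕ) (hr : 1 ≤ r) (N : ℕ)
    (W : Type) [AddCommGroup W] [Module ℚ W] [FiniteDimensional ℚ W]
    (ρ : Representation ℚ Gal(AlgebraicClosure K/K) W)
    (hW : IsPartOf (divisorValue X r) N ρ) : TauberianSquares (divisorValue X r) N ρ :=
  tauberian (divisor_uniq X hr) hW

end Pool.Agent.Results.MP_4589ac_nt.MeanSquares
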