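import Pool.Agent.Q56.WL.Plane

/-!
# The Tauberian Tate conjecture for divisors, with square-root error, for ALL double planes whose coefficients lie in windows
near powers with non-integral exponents

Let `V : w ^ 2 = F(x, y, z)` be a double plane (a K3 surface for `d = 3`) whose branch curve passes through `(0 : 0 : 1)`,
`F = x z ^ (2 d - 1) + ∑ m (i, j) x ^ i y ^ j z ^ (2 d - i - j)`; the coefficients `m (i, j)`, `2 ≤ i + j ≤ 2 d`, are
arbitrary integers in the windows of length `y ^ V` around the real numbers `β l + ω l * i (μ l) ^ ex l`, where
`i = (i_1, ..., i_dm)` runs through `{1, ..., x} ^ dm`, the exponents `ex l > 1` are not integers, and two coefficients which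
depend on the same index have different exponents (for instance `dm = 1`, a one-parameter family with the
exponents `3/2, 5/2, 7/2, ...`).
For generic coefficients the group of the classes of divisors has the rank one, and the Tauberian form of Tate's conjecture says
that the mean of `b_p log p / p` tends to `1`, where `b_p` is the trace of the Frobenius on the second cohomology. We show for
almost all index vectors, and ALL surfaces with coefficients in the windows, that `∑ w_p (b_p / p - 1) log p`, the sum over the
primes `p ≤ t`, is at most `t ^ (1 / 2 + δ)`, for all `w` in an arbitrary family of `t ^ B` weight functions with values in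
`[-1, 1]` (indicator functions of sets of primes, characters, `p ^ (i t)`, ...), for all `t` from `y` to `x ^ c`.

The proof uses the moments of sums of functions of the residues of such tuples (`Q56.WL`: products of Fejér kernels, and van der
Corput's method for the exponential sums over the real points), Weil's bound on the lines through the point (library `H341R2`),
and the independence of the values of `F` at two different points.
-/

set_option autoImplicit false

namespace Pool.Agent.Results.MP_4589ac_nt.NearPowers

open Finset Pool.Agent.Q56.WL
open Pool.Agent.Q235.FD (Weights primesTo planeTrace Mon)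


/-- The double planes `w ^ 2 = F(x, y, z)`, `F = x z ^ (2 d - 1) + ∑ m (i, j) x ^ i y ^ j z ^ (2 d - i - j)` (sum over `2 ≤ i + j ≤ 2 d`):
for all `d ≥ 2`, exponents, coefficients and maps as in `Setting`, all `δ > 0`, `A`, `V` and `B`, for almost all index vectors and
ALL coefficient vectors `m` in the windows of length `y ^ V` (`ForAlmostAll`), uniformly in the shifts and in the family `θ` of at
most `t ^ B` weight functions, the sum of `w_p (b_p / p - 1) log p` over the primes `p ≤ t` is at most `t ^ (1 / 2 + δ)` in absolute
value; here
`b_p = planeTrace d p m` is the number of points of the double plane over the field with `p` elements minus `1 + p ^ 2`. -/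
theorem result (d : ℕ) (hd : 2 ≤ d) (dm : ℕ) (ex ω : Mon d → ℝ) (μ : Mon d → Fin dm) (hset : Setting ex ω μ)
    (δ : ℝ) (hδ : 0 < δ) (A V B : ℕ) :
    ForAlmostAll ex ω μ A V (fun (θ : Weights B) t m => ∀ w ∈ θ.W t,
      |∑ p ∈ primesTo t, w p * Real.log p * (planeTrace d p m / p - 1)| ≤ (t : ℝ) ^ (1 / 2 + δ)) :=
  planes_near hd hset hδ A V B

end Pool.Agent.Results.MP_4589ac_nt.NearPowers
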