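import Pool.Agent.Q193.LT.Add

/-!
# The Tauberian Tate conjecture and the cubic hypersurfaces `T(x, y, z) = 1`

Let `k` be a number field and `ℓ` a prime number. For a separated scheme `X` of finite type over `k` and
`m ∈ ℤ` let

* `b_{𝔭,m}(X) = ∑_i (-1)^i Tr(Frob_𝔭 | (Gr^W_{2m} H^{2m+i}_c(X, ℚ_ℓ))^{I_𝔭})` for the primes `𝔭` of `k`,
  and `D.f m X T = T⁻¹ ∑_{q_𝔭 ≤ T} b_{𝔭,m}(X) (log q_𝔭) / q_𝔭^m` (sum over the `𝔭` that do not
  divide `ℓ`);
* `D.χ m X = ∑_i (-1)^i rk H^i(A^m(W(X)))`, where `W(X)` is the weight complex of Chow motives (Gillet,
  Soulé) and `A^m` the group of algebraic classes over `k` in degree `2m` (cycles of codimension `m`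
  modulo homological equivalence).

For smooth projective `Y` these are the average of the traces of the Frobenius elements on
`H^{2m}(Y, ℚ_ℓ(m))` and the rank of `A^m(Y)`. The standard properties (`IsTauber`): both are additive for a
closed subscheme and its complement (the graded pieces of the weight filtration are motives for absolute
Hodge cycles, a semisimple category, so that the traces on the invariants of inertia are additive), they
are shifted by affine bundles, and `X × 𝔾_m` is obtained from `X` by the formula with `m - 1` and `m`; and
they are zero for `m < 0`.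

`Formula D X` says that for all `m` the limit of `D.f m X T` for `T → ∞` is `D.χ m X`. For a smooth
projective variety `V` of dimension at most two this is the statement of question Q1 for `V` (the case
`m = 1`), as the cases `m = 0` and `m = 2` are known (theorems of Landau and Chebotarev). It is known for
`dim V ≤ 1` (hypothesis `curves`).

**Theorem.** (1) For all `n`, the Tauberian formula is true for all smooth projective varieties of
dimension at most `n` over `k` and all codimensions `m` if and only if it is true for all `m` and all
smooth affine cubic hypersurfaces `T(x, y, z) = 1`, `T` a trilinear form over `k` such that one of the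
three blocks of variables has at most `n + 2` variables (the other two blocks are arbitrary). For `n = 2`
the first statement is question Q1 for all curves and surfaces over `k`.

(2) It is true for all smooth projective varieties over `k` and all `m` if and only if it is true for all
`m` and all hypersurfaces `T(x, y, z) = 1`; if `k = ℚ`, the hypersurfaces
`∑_{(i, j, l) ∈ H} x_i y_j z_l = 1` of the finite sets `H` of triples suffice.

(3) Unconditionally, it is true for all `m` and the hypersurfaces `T(x, y, z) = 1` such that one of the
three blocks of variables has at most three variables.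
-/

set_option autoImplicit false

open CategoryTheory CategoryTheory.Limits AlgebraicGeometry Pool.Agent.Y116.UV Pool.Agent.Z125.UN
  Pool.Agent.Q193.LT
open Filter Topology

namespace Pool.Agent.Results.MP_4589ac_nt.TauberianCubics

/-- Averages of traces of Frobenius elements, and ranks of groups of algebraic classes. -/
structure TauberData (k : Type) [Field k] where
  /-- the average for the primes with `q_𝔭 ≤ T` -/
  f : ℤ → Sch k → ℝ → ℝ
  /-- the rank -/
  χ : ℤ → Sch k → ℤ

variable {k : Type} [Field k]

/-- The standard properties, see above. -/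
def IsTauber (D : TauberData k) : Prop :=
  IsAdd (R := k) (G := (ℝ → ℝ) × ℤ) { fin := fun _ _ => True, e := fun m X => (D.f m X, D.χ m X) }

/-- For all `m`, the averages converge to the rank. -/
def Formula (D : TauberData k) (X : Sch k) : Prop :=
  ∀ m, Tendsto (D.f m X) atTop (𝓝 (D.χ m X : ℝ))

/-- The formula for all smooth projective schemes of dimension at most `n`. -/
def Proj (D : TauberData k) (n : ℕ) : Prop :=
  ∀ Y : Sch k, SmoothProj Y → topologicalKrullDim Y.left ≤ n → Formula D Y

/-- The formula for all hypersurfaces `T = 1` with a block of at most `m` variables. -/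
def Forms (D : TauberData k) (m : ℕ) : Prop :=
  ∀ (a b c : ℕ) (T : Fin a → Fin b → Fin c → k), (a ≤ m ∨ b ≤ m ∨ c ≤ m) → Formula D (hypS T)

/-- The functions with an integral limit, and their limits. -/
def limGroup : AddSubgroup ((ℝ → ℝ) × ℤ) where
  carrier := {p | Tendsto p.1 atTop (𝓝 (p.2 : ℝ))}
  zero_mem' := by
    change Tendsto (fun _ : ℝ => (0 : ℝ)) atTop (𝓝 (((0 : ℤ)) : ℝ))
    rw [Int.cast_zero]
    exact tendsto_const_nhds
  add_mem' := fun {a b} ha hb => by
    change Tendsto (fun t => a.1 t + b.1 t) atTop (𝓝 (((a.2 + b.2 : ℤ)) : ℝ))
    rw [Int.cast_add]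
    exact Tendsto.add ha hb
  neg_mem' := fun {a} ha => by
    change Tendsto (fun t => - a.1 t) atTop (𝓝 (((-a.2 : ℤ)) : ℝ))
    rw [Int.cast_neg]
    exact Tendsto.neg ha

lemma bnd {D : TauberData k} (hD : IsTauber D) (h1 : Formula D (aff k k)) :
    Bnd True (Formula D) := by
  have h2 : Formula D = InAll { fin := fun _ _ => True, e := fun m X => (D.f m X, D.χ m X) }
      limGroup := by
    funext X
    exact propext ⟨fun h m => ⟨trivial, h m⟩, fun h m => (h m).2⟩
  rw [h2] at h1 ⊢
  exact bnd_add hD h1

/-- **The Tauberian Tate conjecture and cubic hypersurfaces.** See the explanations above. -/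
theorem result [NumberField k] {D : TauberData k} (hD : IsTauber D) (hir : Hironaka k)
    (curves : Proj D 1) (point : Formula D (aff k k)) :
    (∀ n : ℕ, Proj D n ↔ Forms D (n + 2)) ∧
    ((∀ Y : Sch k, SmoothProj Y → Formula D Y) ↔
      ∀ (a b c : ℕ) (T : Fin a → Fin b → Fin c → k), Formula D (hypS T)) ∧
    (Frac k → ((∀ Y : Sch k, SmoothProj Y → Formula D Y) ↔
      ∀ (a b c : ℕ) (H : Finset (Fin a × Fin b × Fin c)), Formula D (tripS k H))) ∧
    Forms D 3 :=
  ⟨fun n => sp_iff hir (bnd hD point) n, sp_all_iff hir (bnd hD point),
    sp_graph_iff hir (bnd hD point), (sp_iff hir (bnd hD point) 1).mp curves⟩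

end Pool.Agent.Results.MP_4589ac_nt.TauberianCubics
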